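import Pool.Agent.MP850d4c.Data
import Pool.Agent.MP850d4c.States

set_option autoImplicit false

/-! Uncolourability of the 58-vertex graph by a kernel-checked dynamic program over the colour
states of the boundary edges. A state is a number whose base-4 digits (slots) are colours. -/

namespace Pool.Agent.MP850d4c

/-- Read the colour in slot `p` of the state `s`. -/
def get (s p : ℕ) : ℕ := Nat.land (Nat.shiftRight s (Nat.mul 2 p)) 3

/-- Toggle the colour in slot `p` of the state `s` by `a`. -/
def upd (s p a : ℕ) : ℕ := Nat.xor s (Nat.shiftLeft a (Nat.mul 2 p))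

theorem testBit_get (s p i : ℕ) : (get s p).testBit i = (decide (i < 2) && s.testBit (2 * p + i)) := by
  have h3 : (3 : ℕ) = 2 ^ 2 - 1 := by norm_num
  change ((s >>> (2 * p)) &&& 3).testBit i = _
  rw [Nat.testBit_and, Nat.testBit_shiftRight, h3, Nat.testBit_two_pow_sub_one, Bool.and_comm]

theorem testBit_upd (s p a i : ℕ) :
    (upd s p a).testBit i = (s.testBit i ^^ (decide (2 * p ≤ i) && a.testBit (i - 2 * p))) := by
  change (s ^^^ (a <<< (2 * p))).testBit i = _
  rw [Nat.testBit_xor, Nat.testBit_shiftLeft]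

theorem testBit_small {a j : ℕ} (ha : a < 4) (hj : 2 ≤ j) : a.testBit j = false := by
  apply Nat.testBit_lt_two_pow
  calc a < 4 := ha
    _ = 2 ^ 2 := by norm_num
    _ ≤ 2 ^ j := Nat.pow_le_pow_right (by norm_num) hj

theorem get_upd_same (s p a : ℕ) (ha : a < 4) : get (upd s p a) p = Nat.xor (get s p) a := by
  apply Nat.eq_of_testBit_eq
  intro i
  change _ = ((get s p) ^^^ a).testBit i
  rw [Nat.testBit_xor, testBit_get, testBit_get, testBit_upd]
  by_cases hi : i < 2
  · simp [hi]
  · simp [hi, testBit_small ha (not_lt.1 hi)]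

theorem get_upd_ne (s p q a : ℕ) (ha : a < 4) (h : p ≠ q) : get (upd s p a) q = get s q := by
  apply Nat.eq_of_testBit_eq
  intro i
  rw [testBit_get, testBit_get, testBit_upd]
  by_cases hi : i < 2
  · rcases lt_or_gt_of_ne h with h' | h'
    · have : a.testBit (2 * q + i - 2 * p) = false := testBit_small ha (by omega)
      simp [this]
    · have : ¬ (2 * p ≤ 2 * q + i) := by omega
      simp [this]
  · simp [hi]

/-- Evaluation-forcing application (equal to `k n`). -/
noncomputable def force (n : ℕ) (k : ℕ → Bool) : Bool :=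
  Nat.rec (motive := fun _ => Bool) (k 0) (fun m _ => k (Nat.succ m)) n

theorem force_eq (n : ℕ) (k : ℕ → Bool) : force n k = k n := by
  cases n <;> rfl

/-- Compatibility of the read colour `g` with the colour `a`. -/
def okc (g a : ℕ) : Bool := cond (Nat.beq g 0) true (Nat.beq g a)

def perms : List (ℕ × ℕ × ℕ) :=
  [(1, 2, 3), (1, 3, 2), (2, 1, 3), (2, 3, 1), (3, 1, 2), (3, 2, 1)]

def nxt (p q r a b c s : ℕ) : ℕ := upd (upd (upd s p a) q b) r c

noncomputable def natElem (x : ℕ) (L : List ℕ) : Bool :=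
  List.rec (motive := fun _ => Bool) false (fun y _ ih => cond (Nat.beq x y) true ih) L

theorem natElem_cons (x y : ℕ) (L : List ℕ) :
    natElem x (y :: L) = cond (Nat.beq x y) true (natElem x L) := rfl

theorem mem_of_natElem {x : ℕ} {L : List ℕ} (h : natElem x L = true) : x ∈ L := by
  induction L with
  | nil => exact absurd h (by simp [natElem])
  | cons y L ih =>
    rw [natElem_cons] at h
    cases hxy : Nat.beq x y with
    | true => rw [Nat.eq_of_beq_eq_true hxy]; exact List.mem_cons_self
    | false =>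
      rw [hxy] at h
      exact List.mem_cons_of_mem _ (ih h)

/-- The successor for one choice of colours lies in `S'` (if compatible). -/
noncomputable def one (p q r g h k s : ℕ) (S' : List ℕ) (a b c : ℕ) : Bool :=
  cond (okc g a) (cond (okc h b) (cond (okc k c)
    (force (nxt p q r a b c s) fun x => natElem x S') true) true) true

/-- Every successor of the state `s` lies in `S'`. -/
noncomputable def stateOK (p q r s : ℕ) (S' : List ℕ) : Bool :=
  force (get s p) fun g => force (get s q) fun h => force (get s r) fun k =>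
    cond (one p q r g h k s S' 1 2 3) (cond (one p q r g h k s S' 1 3 2)
      (cond (one p q r g h k s S' 2 1 3) (cond (one p q r g h k s S' 2 3 1)
        (cond (one p q r g h k s S' 3 1 2) (one p q r g h k s S' 3 2 1) false) false) false)
          false) false

/-- Every successor of a state in `S` lies in `S'`. -/
noncomputable def stepOK (p q r : ℕ) (S S' : List ℕ) : Bool :=
  List.rec (motive := fun _ => Bool) true
    (fun s _ ih => cond (stateOK p q r s S') ih false) S

theorem stepOK_cons (p q r s : ℕ) (S S' : List ℕ) :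
    stepOK p q r (s :: S) S' = cond (stateOK p q r s S') (stepOK p q r S S') false := rfl

theorem cond_false_right {a b : Bool} (h : cond a b false = true) : a = true ∧ b = true := by
  cases a <;> simp_all

theorem stateOK_sound {p q r s : ℕ} {S' : List ℕ} (h : stateOK p q r s S' = true)
    {a b c : ℕ} (habc : (a, b, c) ∈ perms) :
    one p q r (get s p) (get s q) (get s r) s S' a b c = true := by
  unfold stateOK at h
  rw [force_eq, force_eq, force_eq] at h
  obtain ⟨h1, h⟩ := cond_false_right h
  obtain ⟨h2, h⟩ := cond_false_right h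
  obtain ⟨h3, h⟩ := cond_false_right h
  obtain ⟨h4, h⟩ := cond_false_right h
  obtain ⟨h5, h6⟩ := cond_false_right h
  simp only [perms, List.mem_cons, List.not_mem_nil, or_false, Prod.mk.injEq] at habc
  rcases habc with ⟨rfl, rfl, rfl⟩ | ⟨rfl, rfl, rfl⟩ | ⟨rfl, rfl, rfl⟩ | ⟨rfl, rfl, rfl⟩ |
    ⟨rfl, rfl, rfl⟩ | ⟨rfl, rfl, rfl⟩
  · exact h1
  · exact h2
  · exact h3
  · exact h4
  · exact h5
  · exact h6

theorem perms_lt {c : ℕ × ℕ × ℕ} (hc : c ∈ perms) : c.1 < 4 ∧ c.2.1 < 4 ∧ c.2.2 < 4 := by
  simp only [perms, List.mem_cons, List.not_mem_nil, or_false] at hc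
  rcases hc with rfl | rfl | rfl | rfl | rfl | rfl <;> norm_num

/-- `cur` lists the (numbers of the) edges occupying the slots (`0` for an empty slot), `col`
gives their colours, and `s` is the corresponding state. -/
def Good (col : ℕ → ℕ) (cur : List ℕ) (s : ℕ) : Prop := ∀ j, get s j = col (cur.getD j 0)

/-- Toggle the occupation of slot `p` by the edge number `a`. -/
def tog (cur : List ℕ) (p a : ℕ) : List ℕ := cur.set p (if cur.getD p 0 = 0 then a else 0)

def valid1 (cur : List ℕ) (p a : ℕ) : Bool :=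
  decide (p < cur.length) && (decide (cur.getD p 0 = 0) || decide (cur.getD p 0 = a))

def validStep (cur : List ℕ) (p q r a b c : ℕ) : Bool :=
  valid1 cur p a && (valid1 cur q b && (valid1 cur r c && (valid1 (tog cur p a) q b &&
    valid1 (tog (tog cur p a) q b) r c)))

theorem valid1_iff {cur : List ℕ} {p a : ℕ} (h : valid1 cur p a = true) :
    p < cur.length ∧ (cur.getD p 0 = 0 ∨ cur.getD p 0 = a) := by
  simpa [valid1] using h

theorem good_tog {col : ℕ → ℕ} {cur : List ℕ} {s p a : ℕ} (h0 : col 0 = 0)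
    (hs : Good col cur s) (hv : valid1 cur p a = true) (ha : col a < 4) :
    Good col (tog cur p a) (upd s p (col a)) := by
  obtain ⟨hp, hc⟩ := valid1_iff hv
  intro j
  by_cases hj : p = j
  · subst hj
    rw [get_upd_same _ _ _ ha, hs p]
    unfold tog
    by_cases hz : cur.getD p 0 = 0
    · rw [if_pos hz, hz, h0]
      have : (cur.set p a).getD p 0 = a := by
        simp [List.getD_eq_getElem?_getD, hp]
      rw [this]
      change 0 ^^^ col a = col a
      simp
    · rw [if_neg hz]
      have hca : cur.getD p 0 = a := hc.resolve_left hz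
      have : (cur.set p 0).getD p 0 = 0 := by
        simp [List.getD_eq_getElem?_getD, hp]
      rw [this, hca, h0]
      change col a ^^^ col a = 0
      simp
  · rw [get_upd_ne _ _ _ _ ha hj, hs j]
    unfold tog
    congr 1
    simp [List.getD_eq_getElem?_getD, List.getElem?_set_ne hj]

theorem okc_of_good {col : ℕ → ℕ} {cur : List ℕ} {s p a : ℕ} (h0 : col 0 = 0)
    (hs : Good col cur s) (hv : valid1 cur p a = true) :
    okc (get s p) (col a) = true := by
  obtain ⟨_, hc⟩ := valid1_iff hv
  unfold okc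
  rw [hs p]
  rcases hc with h | h
  · rw [h, h0]; simp
  · rw [h]; simp

theorem step_sound {col : ℕ → ℕ} {p q r a b c : ℕ} {cur cur' S S' : List ℕ} (h0 : col 0 = 0)
    (hS : stepOK p q r S S' = true) (hv : validStep cur p q r a b c = true)
    (hcur : tog (tog (tog cur p a) q b) r c = cur')
    (hperm : (col a, col b, col c) ∈ perms) (h : ∃ s ∈ S, Good col cur s) :
    ∃ s ∈ S', Good col cur' s := by
  obtain ⟨s, hs, hg⟩ := h
  have h1 : stateOK p q r s S' = true := by
    induction S with
    | nil => simp at hs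
    | cons s' S ih =>
      rw [stepOK_cons] at hS
      obtain ⟨ha, hb⟩ := cond_false_right hS
      rcases List.mem_cons.1 hs with rfl | hs'
      · exact ha
      · exact ih hb hs'
  unfold validStep at hv
  simp only [Bool.and_eq_true] at hv
  obtain ⟨v1, v2, v3, v4, v5⟩ := hv
  obtain ⟨l1, l2, l3⟩ := perms_lt hperm
  have h2 := stateOK_sound h1 hperm
  unfold one at h2
  rw [okc_of_good h0 hg v1, okc_of_good h0 hg v2, okc_of_good h0 hg v3, force_eq] at h2
  refine ⟨_, mem_of_natElem h2, ?_⟩
  rw [← hcur]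
  exact good_tog h0 (good_tog h0 (good_tog h0 hg v1 l1) v4 l2) v5 l3

theorem good_zero (col : ℕ → ℕ) (h0 : col 0 = 0) : Good col [0, 0, 0, 0, 0, 0, 0, 0, 0] 0 := by
  intro j
  have : ([0, 0, 0, 0, 0, 0, 0, 0, 0] : List ℕ).getD j 0 = 0 := by
    rcases j with _ | _ | _ | _ | _ | _ | _ | _ | _ | j <;> simp
  rw [this, h0]
  change (0 >>> (2 * j)) &&& 3 = 0
  simp

theorem st0 : natElem (nxt 0 1 2 1 2 3 0) SS0 = true := by decide +kernel

theorem st1 : stepOK 0 3 4 SS0 SS1 = true := by decide +kernel

theorem st2 : stepOK 1 0 5 SS1 SS2 = true := by decide +kernel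

theorem st3 : stepOK 3 1 6 SS2 SS3 = true := by decide +kernel

theorem st4 : stepOK 0 1 3 SS3 SS4 = true := by decide +kernel

theorem st5 : stepOK 2 0 1 SS4 SS5 = true := by decide +kernel

theorem st6 : stepOK 0 2 7 SS5 SS6 = true := by decide +kernel

theorem st7 : stepOK 5 2 0 SS6 SS7 = true := by decide +kernel

theorem st8 : stepOK 3 2 5 SS7 SS8 = true := by decide +kernel

theorem st9 : stepOK 2 3 8 SS8 SS9 = true := by decide +kernel

theorem st10 : stepOK 7 3 2 SS9 SS10 = true := by decide +kernel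

theorem st11 : stepOK 6 3 7 SS10 SS11 = true := by decide +kernel

theorem st12 : stepOK 5 3 6 SS11 SS12 = true := by decide +kernel

theorem st13 : stepOK 2 6 3 SS12 SS13 = true := by decide +kernel

theorem st14 : stepOK 7 2 5 SS13 SS14 = true := by decide +kernel

theorem st15 : stepOK 3 2 6 SS14 SS15 = true := by decide +kernel

theorem st16 : stepOK 4 2 3 SS15 SS16 = true := by decide +kernel

theorem st17 : stepOK 1 2 4 SS16 SS17 = true := by decide +kernel

theorem st18 : stepOK 4 1 2 SS17 SS18 = true := by decide +kernel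

theorem st19 : stepOK 1 4 7 SS18 SS19 = true := by decide +kernel

theorem st20 : stepOK 3 4 1 SS19 SS20 = true := by decide +kernel

theorem st21 : stepOK 6 3 4 SS20 SS21 = true := by decide +kernel

theorem st22 : stepOK 7 3 6 SS21 SS22 = true := by decide +kernel

theorem st23 : stepOK 0 6 3 SS22 SS23 = true := by decide +kernel

theorem st24 : stepOK 1 4 0 SS23 SS24 = true := by decide +kernel

theorem st25 : stepOK 2 3 1 SS24 SS25 = true := by decide +kernel

theorem st26 : stepOK 8 2 3 SS25 SS26 = true := by decide +kernel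

theorem st27 : stepOK 2 4 6 SS26 SS27 = true := by decide +kernel

theorem st28 : stepOK 5 2 7 SS27 SS28 = true := by decide +kernel

theorem st29 : stepOK 0 4 5 SS28 SS29 = true := by decide +kernel

theorem st30 : stepOK 6 2 0 SS29 SS30 = true := by decide +kernel

theorem st31 : stepOK 7 5 2 SS30 SS31 = true := by decide +kernel

theorem st32 : stepOK 2 4 5 SS31 SS32 = true := by decide +kernel

theorem st33 : stepOK 3 2 6 SS32 SS33 = true := by decide +kernel

theorem st34 : stepOK 4 3 7 SS33 SS34 = true := by decide +kernel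

theorem st35 : stepOK 3 4 8 SS34 SS35 = true := by decide +kernel

theorem st36 : stepOK 2 4 3 SS35 SS36 = true := by decide +kernel

theorem st37 : stepOK 5 2 4 SS36 SS37 = true := by decide +kernel

theorem st38 : stepOK 8 2 5 SS37 SS38 = true := by decide +kernel

theorem st39 : stepOK 6 5 2 SS38 SS39 = true := by decide +kernel

theorem st40 : stepOK 7 5 6 SS39 SS40 = true := by decide +kernel

theorem st41 : stepOK 2 7 8 SS40 SS41 = true := by decide +kernel

theorem st42 : stepOK 1 7 2 SS41 SS42 = true := by decide +kernel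

theorem st43 : stepOK 0 1 7 SS42 SS43 = true := by decide +kernel

theorem st44 : stepOK 5 1 0 SS43 SS44 = true := by decide +kernel

theorem st45 : stepOK 7 1 5 SS44 SS45 = true := by decide +kernel

theorem st46 : stepOK 6 1 7 SS45 SS46 = true := by decide +kernel

theorem st47 : stepOK 7 1 6 SS46 SS47 = true := by decide +kernel

theorem st48 : stepOK 8 5 7 SS47 SS48 = true := by decide +kernel

theorem st49 : stepOK 1 7 5 SS48 SS49 = true := by decide +kernel

theorem st50 : stepOK 4 1 7 SS49 SS50 = true := by decide +kernel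

theorem st51 : stepOK 6 1 4 SS50 SS51 = true := by decide +kernel

theorem st52 : stepOK 0 7 1 SS51 SS52 = true := by decide +kernel

theorem st53 : stepOK 3 0 6 SS52 SS53 = true := by decide +kernel

theorem st54 : stepOK 5 0 3 SS53 SS54 = true := by decide +kernel

theorem st55 : stepOK 4 3 0 SS54 SS55 = true := by decide +kernel

theorem st56 : stepOK 2 6 3 SS55 SS56 = true := by decide +kernel

set_option maxHeartbeats 4000000 in
/-- The graph has no proper colouring (with colours `1, 2, 3`) of its edges: `col k` is the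
colour of the edge number `k` (numbers start with one). -/
theorem no_col (col : ℕ → ℕ) (hz : col 0 = 0)
    (h : ∀ t ∈ STEPS, (col t.2.1, col t.2.2.1, col t.2.2.2) ∈ perms)
    (h1 : col 1 = 1) (h2 : col 2 = 2) (h3 : col 3 = 3) : False := by
  unfold STEPS at h
  obtain ⟨q0, h⟩ := List.forall_mem_cons.1 h
  have r0 : ∃ s ∈ SS0, Good col [1, 2, 3, 0, 0, 0, 0, 0, 0] s := by
    refine ⟨_, mem_of_natElem st0, ?_⟩
    have g := good_tog (p := 2) (a := 3) hz (good_tog (p := 1) (a := 2) hz
      (good_tog (p := 0) (a := 1) hz (good_zero col hz) (by decide) (by rw [h1]; norm_num))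
        (by decide) (by rw [h2]; norm_num)) (by decide) (by rw [h3]; norm_num)
    rw [h1, h2, h3] at g
    exact g
  obtain ⟨q1, h⟩ := List.forall_mem_cons.1 h
  have r1 := step_sound (cur' := [0, 2, 3, 4, 5, 0, 0, 0, 0]) hz st1 (a := 1) (b := 4) (c := 5)
    (by decide) (by decide) q1 r0
  obtain ⟨q2, h⟩ := List.forall_mem_cons.1 h
  have r2 := step_sound (cur' := [6, 0, 3, 4, 5, 7, 0, 0, 0]) hz st2 (a := 2) (b := 6) (c := 7)
    (by decide) (by decide) q2 r1
  obtain ⟨q3, h⟩ := List.forall_mem_cons.1 h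
  have r3 := step_sound (cur' := [6, 8, 3, 0, 5, 7, 9, 0, 0]) hz st3 (a := 4) (b := 8) (c := 9)
    (by decide) (by decide) q3 r2
  obtain ⟨q4, h⟩ := List.forall_mem_cons.1 h
  have r4 := step_sound (cur' := [0, 0, 3, 10, 5, 7, 9, 0, 0]) hz st4 (a := 6) (b := 8) (c := 10)
    (by decide) (by decide) q4 r3
  obtain ⟨q5, h⟩ := List.forall_mem_cons.1 h
  have r5 := step_sound (cur' := [11, 12, 0, 10, 5, 7, 9, 0, 0]) hz st5 (a := 3) (b := 11) (c := 12)
    (by decide) (by decide) q5 r4
  obtain ⟨q6, h⟩ := List.forall_mem_cons.1 h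
  have r6 := step_sound (cur' := [0, 12, 13, 10, 5, 7, 9, 14, 0]) hz st6 (a := 11) (b := 13) (c := 14)
    (by decide) (by decide) q6 r5
  obtain ⟨q7, h⟩ := List.forall_mem_cons.1 h
  have r7 := step_sound (cur' := [15, 12, 0, 10, 5, 0, 9, 14, 0]) hz st7 (a := 7) (b := 13) (c := 15)
    (by decide) (by decide) q7 r6
  obtain ⟨q8, h⟩ := List.forall_mem_cons.1 h
  have r8 := step_sound (cur' := [15, 12, 16, 0, 5, 17, 9, 14, 0]) hz st8 (a := 10) (b := 16) (c := 17)
    (by decide) (by decide) q8 r7
  obtain ⟨q9, h⟩ := List.forall_mem_cons.1 h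
  have r9 := step_sound (cur' := [15, 12, 0, 18, 5, 17, 9, 14, 19]) hz st9 (a := 16) (b := 18) (c := 19)
    (by decide) (by decide) q9 r8
  obtain ⟨q10, h⟩ := List.forall_mem_cons.1 h
  have r10 := step_sound (cur' := [15, 12, 20, 0, 5, 17, 9, 0, 19]) hz st10 (a := 14) (b := 18) (c := 20)
    (by decide) (by decide) q10 r9
  obtain ⟨q11, h⟩ := List.forall_mem_cons.1 h
  have r11 := step_sound (cur' := [15, 12, 20, 21, 5, 17, 0, 22, 19]) hz st11 (a := 9) (b := 21) (c := 22)
    (by decide) (by decide) q11 r10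
  obtain ⟨q12, h⟩ := List.forall_mem_cons.1 h
  have r12 := step_sound (cur' := [15, 12, 20, 0, 5, 0, 23, 22, 19]) hz st12 (a := 17) (b := 21) (c := 23)
    (by decide) (by decide) q12 r11
  obtain ⟨q13, h⟩ := List.forall_mem_cons.1 h
  have r13 := step_sound (cur' := [15, 12, 0, 24, 5, 0, 0, 22, 19]) hz st13 (a := 20) (b := 23) (c := 24)
    (by decide) (by decide) q13 r12
  obtain ⟨q14, h⟩ := List.forall_mem_cons.1 h
  have r14 := step_sound (cur' := [15, 12, 25, 24, 5, 26, 0, 0, 19]) hz st14 (a := 22) (b := 25) (c := 26)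
    (by decide) (by decide) q14 r13
  obtain ⟨q15, h⟩ := List.forall_mem_cons.1 h
  have r15 := step_sound (cur' := [15, 12, 0, 0, 5, 26, 27, 0, 19]) hz st15 (a := 24) (b := 25) (c := 27)
    (by decide) (by decide) q15 r14
  obtain ⟨q16, h⟩ := List.forall_mem_cons.1 h
  have r16 := step_sound (cur' := [15, 12, 28, 29, 0, 26, 27, 0, 19]) hz st16 (a := 5) (b := 28) (c := 29)
    (by decide) (by decide) q16 r15
  obtain ⟨q17, h⟩ := List.forall_mem_cons.1 h
  have r17 := step_sound (cur' := [15, 0, 0, 29, 30, 26, 27, 0, 19]) hz st17 (a := 12) (b := 28) (c := 30)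
    (by decide) (by decide) q17 r16
  obtain ⟨q18, h⟩ := List.forall_mem_cons.1 h
  have r18 := step_sound (cur' := [15, 31, 32, 29, 0, 26, 27, 0, 19]) hz st18 (a := 30) (b := 31) (c := 32)
    (by decide) (by decide) q18 r17
  obtain ⟨q19, h⟩ := List.forall_mem_cons.1 h
  have r19 := step_sound (cur' := [15, 0, 32, 29, 33, 26, 27, 34, 19]) hz st19 (a := 31) (b := 33) (c := 34)
    (by decide) (by decide) q19 r18
  obtain ⟨q20, h⟩ := List.forall_mem_cons.1 h
  have r20 := step_sound (cur' := [15, 35, 32, 0, 0, 26, 27, 34, 19]) hz st20 (a := 29) (b := 33) (c := 35)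
    (by decide) (by decide) q20 r19
  obtain ⟨q21, h⟩ := List.forall_mem_cons.1 h
  have r21 := step_sound (cur' := [15, 35, 32, 36, 37, 26, 0, 34, 19]) hz st21 (a := 27) (b := 36) (c := 37)
    (by decide) (by decide) q21 r20
  obtain ⟨q22, h⟩ := List.forall_mem_cons.1 h
  have r22 := step_sound (cur' := [15, 35, 32, 0, 37, 26, 38, 0, 19]) hz st22 (a := 34) (b := 36) (c := 38)
    (by decide) (by decide) q22 r21
  obtain ⟨q23, h⟩ := List.forall_mem_cons.1 h
  have r23 := step_sound (cur' := [0, 35, 32, 39, 37, 26, 0, 0, 19]) hz st23 (a := 15) (b := 38) (c := 39)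
    (by decide) (by decide) q23 r22
  obtain ⟨q24, h⟩ := List.forall_mem_cons.1 h
  have r24 := step_sound (cur' := [40, 0, 32, 39, 0, 26, 0, 0, 19]) hz st24 (a := 35) (b := 37) (c := 40)
    (by decide) (by decide) q24 r23
  obtain ⟨q25, h⟩ := List.forall_mem_cons.1 h
  have r25 := step_sound (cur' := [40, 41, 0, 0, 0, 26, 0, 0, 19]) hz st25 (a := 32) (b := 39) (c := 41)
    (by decide) (by decide) q25 r24
  obtain ⟨q26, h⟩ := List.forall_mem_cons.1 h
  have r26 := step_sound (cur' := [40, 41, 42, 43, 0, 26, 0, 0, 0]) hz st26 (a := 19) (b := 42) (c := 43)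
    (by decide) (by decide) q26 r25
  obtain ⟨q27, h⟩ := List.forall_mem_cons.1 h
  have r27 := step_sound (cur' := [40, 41, 0, 43, 44, 26, 45, 0, 0]) hz st27 (a := 42) (b := 44) (c := 45)
    (by decide) (by decide) q27 r26
  obtain ⟨q28, h⟩ := List.forall_mem_cons.1 h
  have r28 := step_sound (cur' := [40, 41, 46, 43, 44, 0, 45, 47, 0]) hz st28 (a := 26) (b := 46) (c := 47)
    (by decide) (by decide) q28 r27
  obtain ⟨q29, h⟩ := List.forall_mem_cons.1 h
  have r29 := step_sound (cur' := [0, 41, 46, 43, 0, 48, 45, 47, 0]) hz st29 (a := 40) (b := 44) (c := 48)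
    (by decide) (by decide) q29 r28
  obtain ⟨q30, h⟩ := List.forall_mem_cons.1 h
  have r30 := step_sound (cur' := [49, 41, 0, 43, 0, 48, 0, 47, 0]) hz st30 (a := 45) (b := 46) (c := 49)
    (by decide) (by decide) q30 r29
  obtain ⟨q31, h⟩ := List.forall_mem_cons.1 h
  have r31 := step_sound (cur' := [49, 41, 50, 43, 0, 0, 0, 0, 0]) hz st31 (a := 47) (b := 48) (c := 50)
    (by decide) (by decide) q31 r30
  obtain ⟨q32, h⟩ := List.forall_mem_cons.1 h
  have r32 := step_sound (cur' := [49, 41, 0, 43, 51, 52, 0, 0, 0]) hz st32 (a := 50) (b := 51) (c := 52)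
    (by decide) (by decide) q32 r31
  obtain ⟨q33, h⟩ := List.forall_mem_cons.1 h
  have r33 := step_sound (cur' := [49, 41, 53, 0, 51, 52, 54, 0, 0]) hz st33 (a := 43) (b := 53) (c := 54)
    (by decide) (by decide) q33 r32
  obtain ⟨q34, h⟩ := List.forall_mem_cons.1 h
  have r34 := step_sound (cur' := [49, 41, 53, 55, 0, 52, 54, 56, 0]) hz st34 (a := 51) (b := 55) (c := 56)
    (by decide) (by decide) q34 r33
  obtain ⟨q35, h⟩ := List.forall_mem_cons.1 h
  have r35 := step_sound (cur' := [49, 41, 53, 0, 57, 52, 54, 56, 58]) hz st35 (a := 55) (b := 57) (c := 58)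
    (by decide) (by decide) q35 r34
  obtain ⟨q36, h⟩ := List.forall_mem_cons.1 h
  have r36 := step_sound (cur' := [49, 41, 0, 59, 0, 52, 54, 56, 58]) hz st36 (a := 53) (b := 57) (c := 59)
    (by decide) (by decide) q36 r35
  obtain ⟨q37, h⟩ := List.forall_mem_cons.1 h
  have r37 := step_sound (cur' := [49, 41, 60, 59, 61, 0, 54, 56, 58]) hz st37 (a := 52) (b := 60) (c := 61)
    (by decide) (by decide) q37 r36
  obtain ⟨q38, h⟩ := List.forall_mem_cons.1 h
  have r38 := step_sound (cur' := [49, 41, 0, 59, 61, 62, 54, 56, 0]) hz st38 (a := 58) (b := 60) (c := 62)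
    (by decide) (by decide) q38 r37
  obtain ⟨q39, h⟩ := List.forall_mem_cons.1 h
  have r39 := step_sound (cur' := [49, 41, 63, 59, 61, 0, 0, 56, 0]) hz st39 (a := 54) (b := 62) (c := 63)
    (by decide) (by decide) q39 r38
  obtain ⟨q40, h⟩ := List.forall_mem_cons.1 h
  have r40 := step_sound (cur' := [49, 41, 63, 59, 61, 64, 65, 0, 0]) hz st40 (a := 56) (b := 64) (c := 65)
    (by decide) (by decide) q40 r39
  obtain ⟨q41, h⟩ := List.forall_mem_cons.1 h
  have r41 := step_sound (cur' := [49, 41, 0, 59, 61, 64, 65, 66, 67]) hz st41 (a := 63) (b := 66) (c := 67)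
    (by decide) (by decide) q41 r40
  obtain ⟨q42, h⟩ := List.forall_mem_cons.1 h
  have r42 := step_sound (cur' := [49, 0, 68, 59, 61, 64, 65, 0, 67]) hz st42 (a := 41) (b := 66) (c := 68)
    (by decide) (by decide) q42 r41
  obtain ⟨q43, h⟩ := List.forall_mem_cons.1 h
  have r43 := step_sound (cur' := [0, 69, 68, 59, 61, 64, 65, 70, 67]) hz st43 (a := 49) (b := 69) (c := 70)
    (by decide) (by decide) q43 r42
  obtain ⟨q44, h⟩ := List.forall_mem_cons.1 h
  have r44 := step_sound (cur' := [71, 0, 68, 59, 61, 0, 65, 70, 67]) hz st44 (a := 64) (b := 69) (c := 71)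
    (by decide) (by decide) q44 r43
  obtain ⟨q45, h⟩ := List.forall_mem_cons.1 h
  have r45 := step_sound (cur' := [71, 72, 68, 59, 61, 73, 65, 0, 67]) hz st45 (a := 70) (b := 72) (c := 73)
    (by decide) (by decide) q45 r44
  obtain ⟨q46, h⟩ := List.forall_mem_cons.1 h
  have r46 := step_sound (cur' := [71, 0, 68, 59, 61, 73, 0, 74, 67]) hz st46 (a := 65) (b := 72) (c := 74)
    (by decide) (by decide) q46 r45
  obtain ⟨q47, h⟩ := List.forall_mem_cons.1 h
  have r47 := step_sound (cur' := [71, 75, 68, 59, 61, 73, 76, 0, 67]) hz st47 (a := 74) (b := 75) (c := 76)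
    (by decide) (by decide) q47 r46
  obtain ⟨q48, h⟩ := List.forall_mem_cons.1 h
  have r48 := step_sound (cur' := [71, 75, 68, 59, 61, 0, 76, 77, 0]) hz st48 (a := 67) (b := 73) (c := 77)
    (by decide) (by decide) q48 r47
  obtain ⟨q49, h⟩ := List.forall_mem_cons.1 h
  have r49 := step_sound (cur' := [71, 0, 68, 59, 61, 78, 76, 0, 0]) hz st49 (a := 75) (b := 77) (c := 78)
    (by decide) (by decide) q49 r48
  obtain ⟨q50, h⟩ := List.forall_mem_cons.1 h
  have r50 := step_sound (cur' := [71, 79, 68, 59, 0, 78, 76, 80, 0]) hz st50 (a := 61) (b := 79) (c := 80)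
    (by decide) (by decide) q50 r49
  obtain ⟨q51, h⟩ := List.forall_mem_cons.1 h
  have r51 := step_sound (cur' := [71, 0, 68, 59, 81, 78, 0, 80, 0]) hz st51 (a := 76) (b := 79) (c := 81)
    (by decide) (by decide) q51 r50
  obtain ⟨q52, h⟩ := List.forall_mem_cons.1 h
  have r52 := step_sound (cur' := [0, 82, 68, 59, 81, 78, 0, 0, 0]) hz st52 (a := 71) (b := 80) (c := 82)
    (by decide) (by decide) q52 r51
  obtain ⟨q53, h⟩ := List.forall_mem_cons.1 h
  have r53 := step_sound (cur' := [83, 82, 68, 0, 81, 78, 84, 0, 0]) hz st53 (a := 59) (b := 83) (c := 84)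
    (by decide) (by decide) q53 r52
  obtain ⟨q54, h⟩ := List.forall_mem_cons.1 h
  have r54 := step_sound (cur' := [0, 82, 68, 85, 81, 0, 84, 0, 0]) hz st54 (a := 78) (b := 83) (c := 85)
    (by decide) (by decide) q54 r53
  obtain ⟨q55, h⟩ := List.forall_mem_cons.1 h
  have r55 := step_sound (cur' := [86, 82, 68, 0, 0, 0, 84, 0, 0]) hz st55 (a := 81) (b := 85) (c := 86)
    (by decide) (by decide) q55 r54
  obtain ⟨q56, h⟩ := List.forall_mem_cons.1 h
  have r56 := step_sound (cur' := [86, 82, 0, 87, 0, 0, 0, 0, 0]) hz st56 (a := 68) (b := 84) (c := 87)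
    (by decide) (by decide) q56 r55
  obtain ⟨s, hs, _⟩ := r56
  simp [SS56] at hs

end Pool.Agent.MP850d4c
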