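import Pool.Agent.MP850d4c.Color

set_option autoImplicit false

/-! The 58-vertex graph: cubic, no short cycles, no proper 3-edge-colouring. -/

namespace Pool.Agent.MP850d4c

open SimpleGraph

/-- The list of neighbours of `x`. -/
def nlb (x : ℕ) : List ℕ := NL.getD x []

def rowOK (v : ℕ) : Bool :=
  match nlb v with
  | [a, b, c] => decide (a < b) && (decide (b < c) && (decide (c < 58) && (decide (v ≠ a) &&
      (decide (v ≠ b) && (decide (v ≠ c) && ((nlb a).elem v && ((nlb b).elem v &&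
        (nlb c).elem v)))))))
  | _ => false

theorem rows_ok : (List.range 58).all rowOK = true := by decide +kernel

theorem row_spec (v : ℕ) (hv : v < 58) : ∃ a b c, nlb v = [a, b, c] ∧ a < b ∧ b < c ∧ c < 58 ∧
    v ≠ a ∧ v ≠ b ∧ v ≠ c ∧ v ∈ nlb a ∧ v ∈ nlb b ∧ v ∈ nlb c := by
  have h := List.all_eq_true.1 rows_ok v (List.mem_range.2 hv)
  unfold rowOK at h
  split at h
  · next a b c habc =>
    simp only [Bool.and_eq_true, decide_eq_true_eq, List.elem_iff] at h
    exact ⟨a, b, c, habc, h⟩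
  · simp at h

theorem nlb_symm {x y : ℕ} (hx : x < 58) (h : y ∈ nlb x) : x ∈ nlb y := by
  obtain ⟨a, b, c, he, -, -, -, -, -, -, h1, h2, h3⟩ := row_spec x hx
  rw [he] at h
  simp only [List.mem_cons, List.not_mem_nil, or_false] at h
  rcases h with rfl | rfl | rfl <;> assumption

/-- The graph. -/
def G : SimpleGraph (Fin 58) where
  Adj x y := y.val ∈ nlb x.val
  symm := ⟨fun x _ h => nlb_symm x.isLt h⟩
  loopless := ⟨fun x h => by
    obtain ⟨a, b, c, he, -, -, -, ha, hb, hc, -, -, -⟩ := row_spec x.val x.isLt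
    rw [he] at h
    simp only [List.mem_cons, List.not_mem_nil, or_false] at h
    rcases h with h | h | h
    · exact ha h
    · exact hb h
    · exact hc h⟩

theorem adj_def {x y : Fin 58} : G.Adj x y ↔ y.val ∈ nlb x.val := Iff.rfl

theorem nbrs (v : Fin 58) : ∃ a b c : Fin 58, a ≠ b ∧ a ≠ c ∧ b ≠ c ∧
    nlb v.val = [a.val, b.val, c.val] ∧ ∀ w, G.Adj v w ↔ w = a ∨ w = b ∨ w = c := by
  obtain ⟨a, b, c, he, hab, hbc, hc, -⟩ := row_spec v.val v.isLt
  refine ⟨⟨a, by omega⟩, ⟨b, by omega⟩, ⟨c, hc⟩, ?_, ?_, ?_, he, ?_⟩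
  · intro h; simp only [Fin.mk.injEq] at h; omega
  · intro h; simp only [Fin.mk.injEq] at h; omega
  · intro h; simp only [Fin.mk.injEq] at h; omega
  · intro w
    rw [adj_def, he]
    simp only [List.mem_cons, List.not_mem_nil, or_false, Fin.ext_iff]

theorem four_nbrs {v w1 w2 w3 w4 : Fin 58} (h1 : G.Adj v w1) (h2 : G.Adj v w2) (h3 : G.Adj v w3)
    (h4 : G.Adj v w4) (h12 : w1 ≠ w2) (h13 : w1 ≠ w3) (h14 : w1 ≠ w4) (h23 : w2 ≠ w3)
    (h24 : w2 ≠ w4) (h34 : w3 ≠ w4) : False := by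
  obtain ⟨a, b, c, -, -, -, -, h⟩ := nbrs v
  rw [h] at h1 h2 h3 h4
  rcases h1 with rfl | rfl | rfl <;> rcases h2 with rfl | rfl | rfl <;>
    rcases h3 with rfl | rfl | rfl <;> rcases h4 with rfl | rfl | rfl <;> simp_all

theorem third_nbr (v b z : Fin 58) : ∃ d, G.Adj v d ∧ d ≠ b ∧ d ≠ z := by
  obtain ⟨x, y, w, hxy, hxw, hyw, -, h⟩ := nbrs v
  by_cases h1 : x ≠ b ∧ x ≠ z
  · exact ⟨x, (h x).2 (Or.inl rfl), h1⟩
  by_cases h2 : y ≠ b ∧ y ≠ z
  · exact ⟨y, (h y).2 (Or.inr (Or.inl rfl)), h2⟩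
  refine ⟨w, (h w).2 (Or.inr (Or.inr rfl)), ?_, ?_⟩
  · rintro rfl
    have e1 : x = z := by by_contra hh; exact h1 ⟨hxw, hh⟩
    have e2 : y = z := by by_contra hh; exact h2 ⟨hyw, hh⟩
    exact hxy (e1.trans e2.symm)
  · rintro rfl
    have e1 : x = b := by by_contra hh; exact h1 ⟨hh, hxw⟩
    have e2 : y = b := by by_contra hh; exact h2 ⟨hh, hyw⟩
    exact hxy (e1.trans e2.symm)

theorem cubic (v : Fin 58) : (G.neighborSet v).ncard = 3 := by
  obtain ⟨a, b, c, h1, h2, h3, -, h⟩ := nbrs v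
  rw [Set.ncard_eq_three]
  refine ⟨a, b, c, h1, h2, h3, ?_⟩
  ext w
  simp [h w]

/-! ### Short cycles -/

def chk3 : Bool :=
  (List.range 58).all fun x => (nlb x).all fun y => (nlb y).all fun z => !((nlb z).elem x)

def chk4 : Bool :=
  (List.range 58).all fun x => (nlb x).all fun y => (nlb y).all fun z => Nat.beq z x ||
    (nlb z).all fun w => Nat.beq w y || !((nlb w).elem x)

def chk6 : Bool :=
  (List.range 58).all fun x0 => (nlb x0).all fun x1 => (nlb x1).all fun x2 =>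
    Nat.beq x2 x0 || (nlb x2).all fun x3 => Nat.beq x3 x1 || (nlb x3).all fun x4 =>
    (Nat.beq x4 x2 || Nat.beq x4 x0) || (nlb x4).all fun x5 => (Nat.beq x5 x3 || Nat.beq x5 x1) ||
    !((nlb x5).elem x0)

theorem chk3_true : chk3 = true := by decide +kernel

theorem chk4_true : chk4 = true := by decide +kernel

theorem chk6_true : chk6 = true := by decide +kernel

theorem no3 {x y z : Fin 58} (h1 : G.Adj x y) (h2 : G.Adj y z) (h3 : G.Adj z x) : False := by
  have h := List.all_eq_true.1 chk3_true x.val (List.mem_range.2 x.isLt)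
  have h' := List.all_eq_true.1 (List.all_eq_true.1 h y.val h1) z.val h2
  have h'' : (nlb z.val).elem x.val = true := List.elem_iff.2 h3
  rw [h''] at h'
  simp at h'

theorem beq_false_of_ne {x y : Fin 58} (h : x ≠ y) : Nat.beq x.val y.val = false := by
  cases hb : Nat.beq x.val y.val with
  | false => rfl
  | true => exact absurd (Fin.ext (Nat.eq_of_beq_eq_true hb)) h

theorem no4 {x y z w : Fin 58} (h1 : G.Adj x y) (h2 : G.Adj y z) (h3 : G.Adj z w)
    (h4 : G.Adj w x) (e1 : z ≠ x) (e2 : w ≠ y) : False := by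
  have h := List.all_eq_true.1 chk4_true x.val (List.mem_range.2 x.isLt)
  have h' := List.all_eq_true.1 (List.all_eq_true.1 h y.val h1) z.val h2
  rw [beq_false_of_ne e1, Bool.false_or] at h'
  have h' := List.all_eq_true.1 h' w.val h3
  have h'' : (nlb w.val).elem x.val = true := List.elem_iff.2 h4
  rw [beq_false_of_ne e2, Bool.false_or, h''] at h'
  simp at h'

theorem no6 {x0 x1 x2 x3 x4 x5 : Fin 58} (h1 : G.Adj x0 x1) (h2 : G.Adj x1 x2) (h3 : G.Adj x2 x3)
    (h4 : G.Adj x3 x4) (h5 : G.Adj x4 x5) (h6 : G.Adj x5 x0) (e1 : x2 ≠ x0) (e2 : x3 ≠ x1)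
    (e3 : x4 ≠ x2) (e4 : x4 ≠ x0) (e5 : x5 ≠ x3) (e6 : x5 ≠ x1) : False := by
  have h := List.all_eq_true.1 chk6_true x0.val (List.mem_range.2 x0.isLt)
  have h := List.all_eq_true.1 (List.all_eq_true.1 h x1.val h1) x2.val h2
  rw [beq_false_of_ne e1, Bool.false_or] at h
  have h := List.all_eq_true.1 h x3.val h3
  rw [beq_false_of_ne e2, Bool.false_or] at h
  have h := List.all_eq_true.1 h x4.val h4
  rw [beq_false_of_ne e3, beq_false_of_ne e4, Bool.false_or, Bool.false_or] at h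
  have h := List.all_eq_true.1 h x5.val h5
  have h'' : (nlb x5.val).elem x0.val = true := List.elem_iff.2 h6
  rw [beq_false_of_ne e5, beq_false_of_ne e6, Bool.false_or, Bool.false_or, h''] at h
  simp at h

theorem girth5 : 5 ≤ G.egirth := by
  rw [le_egirth]
  intro a w hw
  have h3 := hw.three_le_length
  by_contra hlt
  have hlt' : w.length < 5 := by
    by_contra h
    exact hlt (by exact_mod_cast not_lt.1 h)
  have hadj : ∀ i, i < w.length → G.Adj (w.getVert i) (w.getVert (i+1)) := fun i hi =>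
    w.adj_getVert_succ hi
  have h0 : w.getVert 0 = a := w.getVert_zero
  have hl : w.getVert w.length = a := w.getVert_length
  have hcases : w.length = 3 ∨ w.length = 4 := by omega
  rcases hcases with h | h
  · rw [h] at hadj hl
    have a0 := hadj 0 (by norm_num)
    have a1 := hadj 1 (by norm_num)
    have a2 := hadj 2 (by norm_num)
    norm_num at a0 a1 a2
    rw [hl] at a2
    exact no3 a0 a1 a2
  · rw [h] at hadj hl
    have a0 := hadj 0 (by norm_num)
    have a1 := hadj 1 (by norm_num)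
    have a2 := hadj 2 (by norm_num)
    have a3 := hadj 3 (by norm_num)
    have n1 := hw.getVert_sub_one_ne_getVert_add_one (i := 1) (by omega)
    have n2 := hw.getVert_sub_one_ne_getVert_add_one (i := 2) (by omega)
    norm_num at a0 a1 a2 a3 n1 n2
    rw [hl] at a3
    exact no4 a0 a1 a2 a3 (Ne.symm n1) (Ne.symm n2)

/-! ### No proper 3-edge-colouring -/

/-- Edge number `k` is the edge `vw`. -/
def edgeIs (k v w : ℕ) : Bool :=
  decide (k ≠ 0) && (decide (EDL.getD (k - 1) (0, 0) = (v, w)) ||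
    decide (EDL.getD (k - 1) (0, 0) = (w, v)))

def stepFor (v : ℕ) (t : (ℕ × ℕ × ℕ) × (ℕ × ℕ × ℕ)) : Bool :=
  match nlb v with
  | [x, y, z] => edgeIs t.2.1 v x && (edgeIs t.2.2.1 v y && edgeIs t.2.2.2 v z)
  | _ => false

def stepsChk : Bool := STEPS.all fun t => (List.range 58).any fun v => stepFor v t

theorem stepsChk_true : stepsChk = true := by decide +kernel

theorem perm3 : ∀ i j k : Fin 3, i ≠ j → i ≠ k → j ≠ k →
    (i.val + 1, j.val + 1, k.val + 1) ∈ perms := by decide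

theorem sigma3 : ∀ i j k : Fin 3, i ≠ j → i ≠ k → j ≠ k →
    ∃ σ : Equiv.Perm (Fin 3), σ i = 0 ∧ σ j = 1 ∧ σ k = 2 := by decide

def toF (n : ℕ) : Fin 58 := Fin.ofNat 58 n

theorem toF_val (v : Fin 58) : toF v.val = v := by
  apply Fin.ext
  simp [toF, Fin.ofNat, Nat.mod_eq_of_lt v.isLt]

theorem no_kappa (κ : Fin 58 → Fin 58 → Fin 3) (hs : ∀ x y, G.Adj x y → κ x y = κ y x)
    (hp : ∀ v y z, G.Adj v y → G.Adj v z → y ≠ z → κ v y ≠ κ v z) : False := by
  -- normalise the colours at the vertex `0`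
  have a1 : G.Adj 0 1 := by rw [adj_def]; decide
  have a2 : G.Adj 0 2 := by rw [adj_def]; decide
  have a5 : G.Adj 0 5 := by rw [adj_def]; decide
  obtain ⟨σ, s1, s2, s5⟩ := sigma3 (κ 0 1) (κ 0 2) (κ 0 5) (hp 0 1 2 a1 a2 (by decide))
    (hp 0 1 5 a1 a5 (by decide)) (hp 0 2 5 a2 a5 (by decide))
  let col : ℕ → ℕ := fun k => if k = 0 then 0 else
    (σ (κ (toF (EDL.getD (k - 1) (0, 0)).1) (toF (EDL.getD (k - 1) (0, 0)).2))).val + 1
  have hcol : ∀ (k : ℕ) (v w : Fin 58), G.Adj v w → edgeIs k v.val w.val = true →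
      col k = (σ (κ v w)).val + 1 := by
    intro k v w hvw h
    unfold edgeIs at h
    simp only [Bool.and_eq_true, Bool.or_eq_true, decide_eq_true_eq] at h
    obtain ⟨hk, h | h⟩ := h
    · simp only [col, if_neg hk, h, toF_val]
    · simp only [col, if_neg hk, h, toF_val]
      rw [hs v w hvw]
  refine no_col col rfl ?_ ?_ ?_ ?_
  · intro t ht
    have h := List.all_eq_true.1 stepsChk_true t ht
    obtain ⟨v, hv, hst⟩ := List.any_eq_true.1 h
    have hv' := List.mem_range.1 hv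
    obtain ⟨a, b, c, hab, hac, hbc, he, hadj⟩ := nbrs ⟨v, hv'⟩
    simp only at he
    unfold stepFor at hst
    rw [he] at hst
    simp only [Bool.and_eq_true] at hst
    obtain ⟨e1, e2, e3⟩ := hst
    have A := (hadj a).2 (Or.inl rfl)
    have B := (hadj b).2 (Or.inr (Or.inl rfl))
    have C := (hadj c).2 (Or.inr (Or.inr rfl))
    rw [hcol _ ⟨v, hv'⟩ a A e1, hcol _ ⟨v, hv'⟩ b B e2, hcol _ ⟨v, hv'⟩ c C e3]
    exact perm3 _ _ _ (fun h => hp _ _ _ A B hab (σ.injective h))
      (fun h => hp _ _ _ A C hac (σ.injective h)) (fun h => hp _ _ _ B C hbc (σ.injective h))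
  · rw [hcol 1 0 1 a1 (by decide), s1]; rfl
  · rw [hcol 2 0 2 a2 (by decide), s2]; rfl
  · rw [hcol 3 0 5 a5 (by decide), s5]; rfl

end Pool.Agent.MP850d4c
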