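import Pool.Agent.MP850d4c.Line

set_option autoImplicit false

/-! Hamiltonian cycles of all vertex-deleted subgraphs, and cyclic 4-edge-connectivity. -/

namespace Pool.Agent.MP850d4c

open SimpleGraph

/-- The vertex list of the cycle in the graph minus `v`. -/
def hcl (v : ℕ) : List ℕ := HCL.getD v []

theorem natElem_of_mem {x : ℕ} {L : List ℕ} (h : x ∈ L) : natElem x L = true := by
  induction L with
  | nil => simp at h
  | cons y L ih =>
    rw [natElem_cons]
    rcases List.mem_cons.1 h with rfl | h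
    · simp
    · rw [ih h]
      cases Nat.beq x y <;> rfl

/-- No repetitions. -/
noncomputable def nodupB (L : List ℕ) : Bool :=
  List.rec (motive := fun _ => Bool) true (fun x xs ih => cond (natElem x xs) false ih) L

theorem nodupB_cons (x : ℕ) (L : List ℕ) :
    nodupB (x :: L) = cond (natElem x L) false (nodupB L) := rfl

theorem nodup_of_nodupB {L : List ℕ} (h : nodupB L = true) : L.Nodup := by
  induction L with
  | nil => exact List.nodup_nil
  | cons x L ih =>
    rw [nodupB_cons] at h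
    cases hx : natElem x L with
    | true => rw [hx] at h; simp at h
    | false =>
      rw [hx] at h
      refine List.nodup_cons.2 ⟨fun hm => ?_, ih h⟩
      rw [natElem_of_mem hm] at hx
      simp at hx

noncomputable def cycOK (v : ℕ) : Bool :=
  (hcl v).length == 57 && (nodupB (hcl v) && (!(natElem v (hcl v)) &&
    ((hcl v).all (fun x => decide (x < 58)) && (List.range 57).all fun i =>
      natElem ((hcl v).getD ((i + 1) % 57) 0) (nlb ((hcl v).getD i 0)))))

theorem cycs_ok : (List.range 58).all cycOK = true := by decide +kernel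

theorem cyc_spec (v : ℕ) (hv : v < 58) : (hcl v).length = 57 ∧ (hcl v).Nodup ∧ v ∉ hcl v ∧
    (∀ x ∈ hcl v, x < 58) ∧
    ∀ i < 57, (hcl v).getD ((i + 1) % 57) 0 ∈ nlb ((hcl v).getD i 0) := by
  have h := List.all_eq_true.1 cycs_ok v (List.mem_range.2 hv)
  unfold cycOK at h
  simp only [Bool.and_eq_true, List.all_eq_true, decide_eq_true_eq, beq_iff_eq,
    Bool.not_eq_true', List.mem_range] at h
  obtain ⟨h1, h2, h3, h4, h5⟩ := h
  refine ⟨h1, nodup_of_nodupB h2, fun hm => ?_, h4, fun i hi => mem_of_natElem (h5 i hi)⟩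
  rw [natElem_of_mem hm] at h3
  simp at h3

/-- The cyclic sequence of vertices of the cycle avoiding `v`. -/
def hc (v : Fin 58) (i : ℕ) : Fin 58 := toF ((hcl v.val).getD (i % 57) 0)

theorem hc_val (v : Fin 58) (i : ℕ) : (hc v i).val = (hcl v.val).getD (i % 57) 0 := by
  obtain ⟨h1, -, -, h4, -⟩ := cyc_spec v.val v.isLt
  have hlt : i % 57 < (hcl v.val).length := by rw [h1]; exact Nat.mod_lt _ (by norm_num)
  have : (hcl v.val).getD (i % 57) 0 < 58 := by
    rw [List.getD_eq_getElem _ _ hlt]
    exact h4 _ (List.getElem_mem hlt)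
  change (hcl v.val).getD (i % 57) 0 % 58 = _
  exact Nat.mod_eq_of_lt this

theorem hc_congr (v : Fin 58) {i j : ℕ} (h : i % 57 = j % 57) : hc v i = hc v j := by
  unfold hc; rw [h]

theorem hc_inj (v : Fin 58) {i j : ℕ} (h : hc v i = hc v j) : i % 57 = j % 57 := by
  obtain ⟨h1, h2, -, -, -⟩ := cyc_spec v.val v.isLt
  have hi : i % 57 < (hcl v.val).length := by rw [h1]; exact Nat.mod_lt _ (by norm_num)
  have hj : j % 57 < (hcl v.val).length := by rw [h1]; exact Nat.mod_lt _ (by norm_num)
  have h' := congrArg Fin.val h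
  rw [hc_val, hc_val, List.getD_eq_getElem _ _ hi, List.getD_eq_getElem _ _ hj] at h'
  exact (h2.getElem_inj_iff).1 h'

theorem hc_ne (v : Fin 58) (i : ℕ) : hc v i ≠ v := by
  obtain ⟨h1, -, h3, -, -⟩ := cyc_spec v.val v.isLt
  have hi : i % 57 < (hcl v.val).length := by rw [h1]; exact Nat.mod_lt _ (by norm_num)
  intro h
  have h' := congrArg Fin.val h
  rw [hc_val, List.getD_eq_getElem _ _ hi] at h'
  have hm := List.getElem_mem hi
  rw [h'] at hm
  exact h3 hm

theorem hc_adj (v : Fin 58) (i : ℕ) : G.Adj (hc v i) (hc v (i + 1)) := by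
  obtain ⟨-, -, -, -, h5⟩ := cyc_spec v.val v.isLt
  rw [adj_def, hc_val, hc_val]
  have := h5 (i % 57) (Nat.mod_lt _ (by norm_num))
  rwa [Nat.mod_add_mod] at this

/-- Every vertex different from `v` lies on the cycle. -/
theorem hc_surj (v x : Fin 58) (hx : x ≠ v) : ∃ i, hc v i = x := by
  let f : Fin 57 → {w : Fin 58 // w ≠ v} := fun i => ⟨hc v i.val, hc_ne v i.val⟩
  have hf : Function.Injective f := by
    intro i j h
    have := hc_inj v (congrArg Subtype.val h)
    rw [Nat.mod_eq_of_lt i.isLt, Nat.mod_eq_of_lt j.isLt] at this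
    exact Fin.ext this
  have hcard : Fintype.card (Fin 57) = Fintype.card {w : Fin 58 // w ≠ v} := by
    simp
  have hbij := (Fintype.bijective_iff_injective_and_card f).2 ⟨hf, hcard⟩
  obtain ⟨i, hi⟩ := hbij.2 ⟨x, hx⟩
  exact ⟨i.val, congrArg Subtype.val hi⟩

theorem ham (v : Fin 58) : ∃ (a : ({v}ᶜ : Set (Fin 58)))
    (p : (G.induce ({v}ᶜ : Set (Fin 58))).Walk a a), p.IsHamiltonianCycle := by
  have hcont : cycleGraph 57 ⊑ G.induce ({v}ᶜ : Set (Fin 58)) := by
    refine ⟨⟨⟨fun i => ⟨hc v i.val, hc_ne v i.val⟩, ?_⟩, ?_⟩⟩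
    · intro i j hij
      rw [cycleGraph_adj'] at hij
      change G.Adj (hc v i.val) (hc v j.val)
      rcases hij with h | h
      · have : i.val % 57 = (j.val + 1) % 57 := by
          rw [Fin.sub_def] at h
          simp only at h
          have := i.isLt
          have := j.isLt
          omega
        rw [hc_congr v this]
        exact (hc_adj v j.val).symm
      · have : j.val % 57 = (i.val + 1) % 57 := by
          rw [Fin.sub_def] at h
          simp only at h
          have := i.isLt
          have := j.isLt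
          omega
        rw [hc_congr v this]
        exact hc_adj v i.val
    · intro i j h
      have := hc_inj v (congrArg Subtype.val h)
      rw [Nat.mod_eq_of_lt i.isLt, Nat.mod_eq_of_lt j.isLt] at this
      exact Fin.ext this
  obtain ⟨a, p, hp, hl⟩ := (cycleGraph_isContained_iff (by norm_num)).1 hcont
  refine ⟨a, p, ?_⟩
  rw [Walk.isHamiltonianCycle_iff_isCycle_and_length_eq]
  refine ⟨hp, ?_⟩
  rw [hl, Fintype.card_compl_set]
  simp

/-! ### Cyclic 4-edge-connectivity -/

def am (v w : ℕ) : ℕ := (AML.getD v []).foldr (fun t acc => cond (Nat.beq t.1 w) t.2 acc) 0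

noncomputable def chkA : Bool := (List.range 58).all fun v => (List.range 57).all fun i =>
  !(Nat.testBit (am ((hcl v).getD i 0) ((hcl v).getD ((i + 1) % 57) 0)) v) &&
    !(Nat.testBit (am ((hcl v).getD ((i + 1) % 57) 0) ((hcl v).getD i 0)) v)

theorem chkA_true : chkA = true := by decide +kernel

def chkB1 : Bool := (List.range 58).all fun x => (nlb x).all fun y =>
  decide (am x y < 2 ^ 58) && (AML.getD x []).any fun t => Nat.beq t.2 (am x y)

theorem chkB1_true : chkB1 = true := by decide +kernel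

def chkB2 : Bool := AML.all fun r => r.all fun t => AML.all fun r' => r'.all fun t' =>
  !(Nat.beq (Nat.land t.2 t'.2) 0)

theorem chkB2_true : chkB2 = true := by decide +kernel

theorem am_mem {x y : Fin 58} (h : G.Adj x y) : am x.val y.val < 2 ^ 58 ∧
    ∃ r ∈ AML, ∃ t ∈ r, t.2 = am x.val y.val := by
  have h1 := List.all_eq_true.1 (List.all_eq_true.1 chkB1_true x.val (List.mem_range.2 x.isLt))
    y.val h
  simp only [Bool.and_eq_true, decide_eq_true_eq, List.any_eq_true] at h1
  obtain ⟨h1, t, ht, hb⟩ := h1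
  refine ⟨h1, AML.getD x.val [], ?_, t, ht, Nat.eq_of_beq_eq_true hb⟩
  by_cases hx : x.val < AML.length
  · rw [List.getD_eq_getElem _ _ hx]; exact List.getElem_mem hx
  · rw [List.getD_eq_default _ _ (not_lt.1 hx)] at ht
    simp at ht

theorem avoid_one {x y v : Fin 58} (h : Nat.testBit (am x.val y.val) v.val = true) (i : ℕ) :
    s(hc v i, hc v (i + 1)) ≠ s(x, y) := by
  intro he
  have hA := List.all_eq_true.1 (List.all_eq_true.1 chkA_true v.val (List.mem_range.2 v.isLt))
    (i % 57) (List.mem_range.2 (Nat.mod_lt _ (by norm_num)))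
  have e1 : (hcl v.val).getD (i % 57) 0 = (hc v i).val := (hc_val v i).symm
  have e2 : (hcl v.val).getD ((i % 57 + 1) % 57) 0 = (hc v (i + 1)).val := by
    rw [hc_val, Nat.mod_add_mod]
  rw [e1, e2] at hA
  simp only [Bool.and_eq_true, Bool.not_eq_true'] at hA
  rw [Sym2.eq_iff] at he
  rcases he with ⟨h1, h2⟩ | ⟨h1, h2⟩
  · rw [h1, h2, h] at hA; simp at hA
  · rw [h1, h2, h] at hA; simp at hA

/-- Any two edges are avoided by one of the cycles. -/
theorem avoid_two {x y x' y' : Fin 58} (h : G.Adj x y) (h' : G.Adj x' y') :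
    ∃ v : Fin 58, ∀ i, s(hc v i, hc v (i + 1)) ≠ s(x, y) ∧ s(hc v i, hc v (i + 1)) ≠ s(x', y') := by
  obtain ⟨hlt, r, hr, t, ht, e⟩ := am_mem h
  obtain ⟨hlt', r', hr', t', ht', e'⟩ := am_mem h'
  have hB := List.all_eq_true.1 (List.all_eq_true.1 (List.all_eq_true.1 (List.all_eq_true.1
    chkB2_true r hr) t ht) r' hr') t' ht'
  rw [e, e'] at hB
  have hne : am x.val y.val &&& am x'.val y'.val ≠ 0 := by
    intro h0
    have : Nat.land (am x.val y.val) (am x'.val y'.val) = 0 := h0
    rw [this] at hB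
    simp at hB
  obtain ⟨v, hv⟩ := Nat.exists_testBit_ne_of_ne hne
  rw [Nat.zero_testBit, Nat.testBit_and] at hv
  have hv' : Nat.testBit (am x.val y.val) v = true ∧ Nat.testBit (am x'.val y'.val) v = true := by
    revert hv
    cases Nat.testBit (am x.val y.val) v <;> cases Nat.testBit (am x'.val y'.val) v <;> simp
  have hv58 : v < 58 := by
    by_contra hge
    have := Nat.testBit_lt_two_pow (lt_of_lt_of_le hlt
      (Nat.pow_le_pow_right (by norm_num) (not_lt.1 hge)))
    rw [this] at hv'
    simp at hv'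
  exact ⟨⟨v, hv58⟩, fun i => ⟨avoid_one hv'.1 i, avoid_one hv'.2 i⟩⟩

theorem exists_bad_index (v : Fin 58) (e : Sym2 (Fin 58)) : ∃ j, j < 57 ∧
    ∀ i, i % 57 ≠ j → s(hc v i, hc v (i + 1)) ≠ e := by
  by_cases hex : ∃ i, s(hc v i, hc v (i + 1)) = e
  · obtain ⟨k, hk⟩ := hex
    refine ⟨k % 57, Nat.mod_lt _ (by norm_num), fun i hi he => ?_⟩
    rw [← hk, Sym2.eq_iff] at he
    rcases he with ⟨h1, _⟩ | ⟨h1, h2⟩
    · exact hi (hc_inj v h1)
    · have a := hc_inj v h1
      have b := hc_inj v h2
      omega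
  · exact ⟨0, by norm_num, fun i _ he => hex ⟨i, he⟩⟩

theorem reach_all (v : Fin 58) (H : SimpleGraph (Fin 58)) (j : ℕ) (hj : j < 57)
    (hH : ∀ i, i % 57 ≠ j → H.Reachable (hc v i) (hc v (i + 1))) (i k : ℕ) :
    H.Reachable (hc v i) (hc v k) := by
  have h1 : ∀ n, n ≤ 56 → H.Reachable (hc v (j + 1)) (hc v (j + 1 + n)) := by
    intro n
    induction n with
    | zero => intro _; rfl
    | succ n ih =>
      intro hn
      refine (ih (by omega)).trans ?_
      exact hH (j + 1 + n) (by omega)
  have h2 : ∀ m, H.Reachable (hc v (j + 1)) (hc v m) := by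
    intro m
    have e : (j + 1 + (m + 57 * (j + 1) - (j + 1)) % 57) % 57 = m % 57 := by omega
    have h3 := h1 ((m + 57 * (j + 1) - (j + 1)) % 57) (by omega)
    rwa [hc_congr v e] at h3
  exact (h2 i).symm.trans (h2 k)

theorem cyc4 (F : Set (Sym2 (Fin 58))) (hF : F ⊆ G.edgeSet) (hc4 : F.ncard < 4)
    (u w : Fin 58) (p : (G.deleteEdges F).Walk u u) (q : (G.deleteEdges F).Walk w w)
    (hp : p.IsCycle) (hq : q.IsCycle) : (G.deleteEdges F).Reachable u w := by
  classical
  -- enlarge `F` to a set of three edges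
  have hfin : F.Finite := Set.toFinite F
  obtain ⟨S, hFS, hSE, hS3⟩ : ∃ S : Finset (Sym2 (Fin 58)), hfin.toFinset ⊆ S ∧
      S ⊆ G.edgeSet.toFinite.toFinset ∧ S.card = 3 := by
    apply Finset.exists_subsuperset_card_eq
    · intro e he
      simp only [Set.Finite.mem_toFinset] at he ⊢
      exact hF he
    · rw [← Set.ncard_eq_toFinset_card F hfin]; omega
    · rw [← Set.ncard_eq_toFinset_card]
      have h4 := lower MM MM_oneF
      have := Set.ncard_le_ncard (Set.sdiff_subset : G.edgeSet \ ⋃ i, MM i ⊆ G.edgeSet)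
        (Set.toFinite _)
      omega
  obtain ⟨e1, e2, e3, -, -, -, rfl⟩ := Finset.card_eq_three.1 hS3
  have he1 : e1 ∈ G.edgeSet :=
    (Set.Finite.mem_toFinset _).1 (hSE (Finset.mem_insert_self e1 _))
  have he2 : e2 ∈ G.edgeSet :=
    (Set.Finite.mem_toFinset _).1 (hSE (Finset.mem_insert_of_mem (Finset.mem_insert_self e2 _)))
  have hFsub : ∀ e ∈ F, e = e1 ∨ e = e2 ∨ e = e3 := by
    intro e he
    have := hFS ((Set.Finite.mem_toFinset hfin).2 he)
    simpa using this
  have key : ∃ v : Fin 58, ∀ i, s(hc v i, hc v (i + 1)) ≠ e1 ∧ s(hc v i, hc v (i + 1)) ≠ e2 := by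
    induction e1 with | _ x y => ?_
    induction e2 with | _ x' y' => ?_
    exact avoid_two he1 he2
  obtain ⟨v, hv⟩ := key
  obtain ⟨j, hj, hj'⟩ := exists_bad_index v e3
  have hadj : ∀ i, i % 57 ≠ j → (G.deleteEdges F).Adj (hc v i) (hc v (i + 1)) := by
    intro i hi
    rw [deleteEdges_adj]
    refine ⟨hc_adj v i, fun hmem => ?_⟩
    rcases hFsub _ hmem with h | h | h
    · exact (hv i).1 h
    · exact (hv i).2 h
    · exact hj' i hi h
  have hall := reach_all v (G.deleteEdges F) j hj (fun i hi => (hadj i hi).reachable)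
  -- every vertex on a cycle is joined to the cycle
  have hto : ∀ (x : Fin 58) (r : (G.deleteEdges F).Walk x x), r.IsCycle →
      (G.deleteEdges F).Reachable x (hc v 0) := by
    intro x r hr
    by_cases hx : x = v
    · have hadj' : (G.deleteEdges F).Adj x r.snd := r.adj_snd hr.not_nil
      have hne : r.snd ≠ v := by rw [← hx]; exact hadj'.ne'
      obtain ⟨i, hi⟩ := hc_surj v r.snd hne
      have h1 := hadj'.reachable
      rw [← hi] at h1
      exact h1.trans (hall i 0)
    · obtain ⟨i, hi⟩ := hc_surj v x hx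
      rw [← hi]
      exact hall i 0
  exact (hto u p hp).trans (hto w q hq).symm

end Pool.Agent.MP850d4c
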