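import Pool.Agent.MP850d4c.Mu

set_option autoImplicit false

/-! The chromatic index of the graph is four, and the graph has no Hamiltonian cycle. -/

namespace Pool.Agent.MP850d4c

open SimpleGraph

open Classical in
theorem line_not3 : ¬ G.lineGraph.Colorable 3 := by
  rintro ⟨c⟩
  have hval : ∀ (v w : Fin 58) (h : G.Adj v w),
      (if h : G.Adj v w then c ⟨s(v, w), h⟩ else 0) = c ⟨s(v, w), h⟩ := by
    intro v w h; rw [dif_pos h]
  refine no_kappa (fun v w => if h : G.Adj v w then c ⟨s(v, w), h⟩ else 0) ?_ ?_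
  · intro x y h
    rw [hval x y h, hval y x h.symm]
    congr 1
    exact Subtype.ext Sym2.eq_swap
  · intro v y z hy hz hyz
    rw [hval v y hy, hval v z hz]
    apply c.valid
    rw [lineGraph_adj_iff_exists]
    refine ⟨?_, v, Sym2.mem_mk_left _ _, Sym2.mem_mk_left _ _⟩
    intro h
    have := congrArg Subtype.val h
    exact hyz (Sym2.congr_right.1 this)

def unc1Chk : Bool := (List.range 58).all fun v => (nlb v).all fun y => (nlb v).all fun z =>
  Nat.beq y z || (Nat.beq (PT0.getD v 0) y || (Nat.beq (PT1.getD v 0) y ||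
  (Nat.beq (PT2.getD v 0) y || (Nat.beq (PT0.getD v 0) z || (Nat.beq (PT1.getD v 0) z ||
    Nat.beq (PT2.getD v 0) z)))))

theorem unc1Chk_true : unc1Chk = true := by decide +kernel

theorem unc1 (v y z : Fin 58) (hy : G.Adj v y) (hz : G.Adj v z) (hyz : y ≠ z) :
    ∃ i, pt i v = y ∨ pt i v = z := by
  have h1 := List.all_eq_true.1 (List.all_eq_true.1 (List.all_eq_true.1 unc1Chk_true v.val
    (List.mem_range.2 v.isLt)) y.val hy) z.val hz
  rw [beq_false_of_ne hyz] at h1
  simp only [Bool.or_eq_true, Bool.false_eq_true, false_or] at h1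
  have key : ∀ (i : Fin 3) (L : List ℕ) (u : Fin 58), (∀ v, pt i v = toF (L.getD v.val 0)) →
      Nat.beq (L.getD v.val 0) u.val = true → pt i v = u := by
    intro i L u hL hb
    rw [hL, Nat.eq_of_beq_eq_true hb, toF_val]
  rcases h1 with h | h | h | h | h | h
  · exact ⟨0, Or.inl (key 0 PT0 y (fun _ => rfl) h)⟩
  · exact ⟨1, Or.inl (key 1 PT1 y (fun _ => rfl) h)⟩
  · exact ⟨2, Or.inl (key 2 PT2 y (fun _ => rfl) h)⟩
  · exact ⟨0, Or.inr (key 0 PT0 z (fun _ => rfl) h)⟩
  · exact ⟨1, Or.inr (key 1 PT1 z (fun _ => rfl) h)⟩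
  · exact ⟨2, Or.inr (key 2 PT2 z (fun _ => rfl) h)⟩

def f4 (v w : Fin 58) : Fin 4 :=
  if pt 0 v = w then 0 else if pt 1 v = w then 1 else if pt 2 v = w then 2 else 3

theorem pt_symm (i : Fin 3) (v w : Fin 58) : pt i v = w ↔ pt i w = v := by
  constructor
  · rintro rfl; exact pt_inv i v
  · rintro rfl; exact pt_inv i w

theorem f4_symm (v w : Fin 58) : f4 v w = f4 w v := by
  unfold f4
  simp only [pt_symm _ v w]

theorem f4_zero {v w : Fin 58} (h : f4 v w = 0) : pt 0 v = w := by
  unfold f4 at h
  by_contra h0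
  rw [if_neg h0] at h
  split_ifs at h <;> simp at h

theorem f4_one {v w : Fin 58} (h : f4 v w = 1) : pt 1 v = w := by
  unfold f4 at h
  by_contra h1
  by_cases h0 : pt 0 v = w
  · rw [if_pos h0] at h; simp at h
  · rw [if_neg h0, if_neg h1] at h
    split_ifs at h <;> simp at h

theorem f4_two {v w : Fin 58} (h : f4 v w = 2) : pt 2 v = w := by
  unfold f4 at h
  by_contra h2
  by_cases h0 : pt 0 v = w
  · rw [if_pos h0] at h; simp at h
  · rw [if_neg h0] at h
    by_cases h1 : pt 1 v = w
    · rw [if_pos h1] at h; simp at h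
    · rw [if_neg h1, if_neg h2] at h; simp at h

theorem f4_three {v w : Fin 58} (h : f4 v w = 3) : pt 0 v ≠ w ∧ pt 1 v ≠ w ∧ pt 2 v ≠ w := by
  unfold f4 at h
  by_cases h0 : pt 0 v = w
  · rw [if_pos h0] at h; simp at h
  by_cases h1 : pt 1 v = w
  · rw [if_neg h0, if_pos h1] at h; simp at h
  by_cases h2 : pt 2 v = w
  · rw [if_neg h0, if_neg h1, if_pos h2] at h; simp at h
  exact ⟨h0, h1, h2⟩

theorem fin4 : ∀ t : Fin 4, t = 0 ∨ t = 1 ∨ t = 2 ∨ t = 3 := by decide

theorem fin3 : ∀ t : Fin 3, t = 0 ∨ t = 1 ∨ t = 2 := by decide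

theorem f4_three' {v w : Fin 58} (h : f4 v w = 3) (i : Fin 3) : pt i v ≠ w := by
  obtain ⟨h0, h1, h2⟩ := f4_three h
  rcases fin3 i with rfl | rfl | rfl <;> assumption

theorem line4 : G.lineGraph.Colorable 4 := by
  refine ⟨Coloring.mk (fun e => Sym2.lift ⟨f4, f4_symm⟩ e.val) ?_⟩
  rintro ⟨e, he⟩ ⟨e', he'⟩ hadj
  rw [lineGraph_adj_iff_exists] at hadj
  obtain ⟨hne, v, hv, hv'⟩ := hadj
  obtain ⟨y, rfl⟩ := Sym2.mem_iff_exists.1 hv
  obtain ⟨z, rfl⟩ := Sym2.mem_iff_exists.1 hv'
  have hyz : y ≠ z := by rintro rfl; exact hne rfl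
  change f4 v y ≠ f4 v z
  intro h
  rcases fin4 (f4 v y) with h0 | h0 | h0 | h0
  · exact hyz ((f4_zero h0).symm.trans (f4_zero (h ▸ h0)))
  · exact hyz ((f4_one h0).symm.trans (f4_one (h ▸ h0)))
  · exact hyz ((f4_two h0).symm.trans (f4_two (h ▸ h0)))
  · obtain ⟨i, hi | hi⟩ := unc1 v y z he he' hyz
    · exact f4_three' h0 i hi
    · exact f4_three' (h ▸ h0) i hi

theorem line_chrom : G.lineGraph.chromaticNumber = 4 := by
  have h := (chromaticNumber_eq_iff_colorable_not_colorable (G := G.lineGraph) (n := 3)).2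
    ⟨line4, line_not3⟩
  rw [h]; norm_num

/-! ### No Hamiltonian cycle -/

def par (i : Fin 58) : Fin 3 := if i.val % 2 = 0 then 0 else 1

theorem par_ne_two (i : Fin 58) : par i ≠ 2 := by
  unfold par; split_ifs <;> decide

theorem par_succ (i : Fin 58) : par (i + 1) ≠ par i := by
  revert i; decide +kernel

theorem two_ne (i : Fin 58) : i ≠ i + 1 + 1 := by
  revert i; decide +kernel

theorem no_enum (e : Equiv.Perm (Fin 58)) (he : ∀ i, G.Adj (e i) (e (i + 1))) : False := by
  let g := e.symm
  have hg : ∀ x, e (g x) = x := fun x => e.apply_symm_apply x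
  have hge : ∀ i, g (e i) = i := fun i => e.symm_apply_apply i
  refine no_kappa (fun x y => if g y = g x + 1 then par (g x) else
    if g x = g y + 1 then par (g y) else 2) ?_ ?_
  · intro x y _
    by_cases hA : g y = g x + 1
    · have hB : g x ≠ g y + 1 := by rw [hA]; exact two_ne _
      simp only [if_pos hA, if_neg hB]
    · simp only [if_neg hA]
  · intro v y z hy hz hyz h
    have hjk : g y ≠ g z := fun h => hyz (e.symm.injective h)
    by_cases Ay : g y = g v + 1
    · have Az : g z ≠ g v + 1 := fun h => hjk (Ay.trans h.symm)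
      simp only [if_pos Ay, if_neg Az] at h
      by_cases Bz : g v = g z + 1
      · rw [if_pos Bz, Bz] at h
        exact par_succ _ h
      · rw [if_neg Bz] at h
        exact par_ne_two _ h
    · by_cases By : g v = g y + 1
      · have Bz : g v ≠ g z + 1 := fun h => hjk (add_right_cancel (By.symm.trans h))
        simp only [if_neg Ay, if_pos By, if_neg Bz] at h
        by_cases Az : g z = g v + 1
        · rw [if_pos Az, By] at h
          exact par_succ _ h.symm
        · rw [if_neg Az] at h
          exact par_ne_two _ h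
      · simp only [if_neg Ay, if_neg By] at h
        by_cases Az : g z = g v + 1
        · rw [if_pos Az] at h
          exact par_ne_two _ h.symm
        · by_cases Bz : g v = g z + 1
          · rw [if_neg Az, if_pos Bz] at h
            exact par_ne_two _ h.symm
          · -- four neighbours
            have n1 : G.Adj v (e (g v + 1)) := by
              have := he (g v); rwa [hg] at this
            have n2 : G.Adj v (e (g v - 1)) := by
              have := he (g v - 1)
              rw [sub_add_cancel, hg] at this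
              exact this.symm
            refine four_nbrs n1 n2 hy hz ?_ ?_ ?_ ?_ ?_ hyz
            · intro hh
              have := e.injective hh
              have h2 : g v = g v + 1 + 1 := by rw [this, sub_add_cancel]
              exact two_ne _ h2
            · intro hh; exact Ay (by rw [← hh, hge])
            · intro hh; exact Az (by rw [← hh, hge])
            · intro hh; exact By (by rw [← hh, hge, sub_add_cancel])
            · intro hh; exact Bz (by rw [← hh, hge, sub_add_cancel])

theorem not_ham : ¬ ∃ (a : Fin 58) (p : G.Walk a a), p.IsHamiltonianCycle := by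
  rintro ⟨a, p, hp⟩
  have hlen : p.length = 58 := by
    rw [hp.length_eq]; simp
  obtain ⟨f⟩ := (cycleGraph_isContained_iff (n := 58) (G := G) (by norm_num)).2
    ⟨a, p, hp.isCycle, hlen⟩
  have hinj : Function.Injective f.toHom := f.injective'
  have hbij : Function.Bijective f.toHom := Finite.injective_iff_bijective.1 hinj
  refine no_enum (Equiv.ofBijective _ hbij) fun i => ?_
  change G.Adj (f.toHom i) (f.toHom (i + 1))
  apply f.toHom.map_adj
  change (cycleGraph (56 + 2)).Adj i (i + 1)
  rw [cycleGraph_adj]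
  right
  exact add_sub_cancel_left i 1

end Pool.Agent.MP850d4c
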