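import Pool.Agent.MP850d4c.Graph

set_option autoImplicit false

/-! Three 1-factors of the graph always miss at least four edges, and some miss exactly four. -/

namespace Pool.Agent.MP850d4c

open SimpleGraph

/-- Partner functions of three 1-factors. -/
structure Partners (p : Fin 3 → Fin 58 → Fin 58) : Prop where
  adj : ∀ i v, G.Adj v (p i v)
  invol : ∀ i v, p i (p i v) = v

section

variable {p : Fin 3 → Fin 58 → Fin 58}

/-- The edge `vw` is uncovered. -/
def Unc (p : Fin 3 → Fin 58 → Fin 58) (v w : Fin 58) : Prop := G.Adj v w ∧ ∀ i, p i v ≠ w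

/-- The edge `vw` is covered at least twice. -/
def Dbl (p : Fin 3 → Fin 58 → Fin 58) (v w : Fin 58) : Prop := ∃ i j, i ≠ j ∧ p i v = w ∧ p j v = w

theorem Unc.symm (hp : Partners p) {v w : Fin 58} (h : Unc p v w) : Unc p w v := by
  refine ⟨h.1.symm, fun i hi => h.2 i ?_⟩
  rw [← hi]; exact hp.invol i w

theorem Dbl.symm (hp : Partners p) {v w : Fin 58} (h : Dbl p v w) : Dbl p w v := by
  obtain ⟨i, j, hij, h1, h2⟩ := h
  refine ⟨i, j, hij, ?_, ?_⟩
  · rw [← h1]; exact hp.invol i v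
  · rw [← h2]; exact hp.invol j v

theorem Dbl.adj (hp : Partners p) {v w : Fin 58} (h : Dbl p v w) : G.Adj v w := by
  obtain ⟨i, _, _, h1, _⟩ := h
  rw [← h1]; exact hp.adj i v

theorem Unc.not_dbl {v w : Fin 58} (h : Unc p v w) (h' : Dbl p v w) : False := by
  obtain ⟨i, _, _, h1, _⟩ := h'
  exact h.2 i h1

theorem exists_dbl (hp : Partners p) {a b : Fin 58} (h : Unc p a b) :
    ∃ c, Dbl p b c ∧ c ≠ a := by
  have h' := h.symm hp
  by_cases h01 : p 0 b = p 1 b
  · exact ⟨p 0 b, ⟨0, 1, by decide, rfl, h01.symm⟩, h'.2 0⟩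
  by_cases h02 : p 0 b = p 2 b
  · exact ⟨p 0 b, ⟨0, 2, by decide, rfl, h02.symm⟩, h'.2 0⟩
  by_cases h12 : p 1 b = p 2 b
  · exact ⟨p 1 b, ⟨1, 2, by decide, rfl, h12.symm⟩, h'.2 1⟩
  exact (four_nbrs (hp.adj 0 b) (hp.adj 1 b) (hp.adj 2 b) h'.1 h01 h02 (h'.2 0) h12 (h'.2 1)
    (h'.2 2)).elim

theorem third_index : ∀ i j : Fin 3, i ≠ j → ∃ k : Fin 3, ∀ m, m = i ∨ m = j ∨ m = k := by
  decide

theorem exists_unc (hp : Partners p) {b c : Fin 58} (h : Dbl p b c) :
    ∃ d, Unc p c d ∧ d ≠ b := by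
  obtain ⟨i, j, hij, h1, h2⟩ := h.symm hp
  obtain ⟨k, hk⟩ := third_index i j hij
  obtain ⟨d, hd, hdb, hdz⟩ := third_nbr c b (p k c)
  refine ⟨d, ⟨hd, fun m hm => ?_⟩, hdb⟩
  rcases hk m with rfl | rfl | rfl
  · exact hdb (hm.symm.trans h1)
  · exact hdb (hm.symm.trans h2)
  · exact hdz hm.symm

theorem dbl_unique {b c d : Fin 58} (h : Dbl p b c) (h' : Dbl p b d) : c = d := by
  obtain ⟨i, j, hij, h1, h2⟩ := h
  obtain ⟨k, l, hkl, h3, h4⟩ := h'
  have key : ∀ i j k l : Fin 3, i ≠ j → k ≠ l → i = k ∨ i = l ∨ j = k ∨ j = l := by decide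
  rcases key i j k l hij hkl with rfl | rfl | rfl | rfl
  · exact h1.symm.trans h3
  · exact h1.symm.trans h4
  · exact h2.symm.trans h3
  · exact h2.symm.trans h4

/-- One step: from an uncovered edge to the next one. -/
theorem next_unc (hp : Partners p) {a b : Fin 58} (h : Unc p a b) :
    ∃ c d, Dbl p b c ∧ Unc p c d := by
  obtain ⟨c, hc, _⟩ := exists_dbl hp h
  obtain ⟨d, hd, _⟩ := exists_unc hp hc
  exact ⟨c, d, hc, hd⟩

theorem dist1 (hp : Partners p) {a b c d : Fin 58} (h1 : Unc p a b) (h2 : Dbl p b c) :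
    s(a, b) ≠ s(c, d) := by
  intro h
  rw [Sym2.eq_iff] at h
  rcases h with ⟨rfl, rfl⟩ | ⟨rfl, rfl⟩
  · exact (h1.symm hp).not_dbl h2
  · exact G.loopless.irrefl _ (h2.adj hp)

theorem dist2 (hp : Partners p) {a b c d e f : Fin 58} (h1 : Unc p a b) (h2 : Dbl p b c)
    (h3 : Unc p c d) (h4 : Dbl p d e) (h5 : Unc p e f) : s(a, b) ≠ s(e, f) := by
  have n1 : c ≠ a := by rintro rfl; exact (h1.symm hp).not_dbl h2
  have n2 : d ≠ b := by rintro rfl; exact h3.not_dbl (h2.symm hp)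
  intro h
  rw [Sym2.eq_iff] at h
  rcases h with ⟨rfl, rfl⟩ | ⟨rfl, rfl⟩
  · exact no4 h1.1 (h2.adj hp) h3.1 (h4.adj hp) n1 n2
  · exact no3 (h2.adj hp) h3.1 (h4.adj hp)

theorem dist3 (hp : Partners p) {a b c d e f g h : Fin 58} (h1 : Unc p a b) (h2 : Dbl p b c)
    (h3 : Unc p c d) (h4 : Dbl p d e) (h5 : Unc p e f) (h6 : Dbl p f g) (h7 : Unc p g h) :
    s(a, b) ≠ s(g, h) := by
  have n1 : c ≠ a := by rintro rfl; exact (h1.symm hp).not_dbl h2
  have n2 : d ≠ b := by rintro rfl; exact h3.not_dbl (h2.symm hp)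
  have n3 : e ≠ c := by rintro rfl; exact (h3.symm hp).not_dbl h4
  have n4 : f ≠ d := by rintro rfl; exact h5.not_dbl (h4.symm hp)
  have n5 : g ≠ e := by rintro rfl; exact (h5.symm hp).not_dbl h6
  intro hh
  rw [Sym2.eq_iff] at hh
  rcases hh with ⟨rfl, rfl⟩ | ⟨rfl, rfl⟩
  · -- `g = a`
    have n6 : f ≠ b := by
      rintro rfl
      exact (h1.symm hp).not_dbl h6
    exact no6 h1.1 (h2.adj hp) h3.1 (h4.adj hp) h5.1 (h6.adj hp) n1 n2 n3 n5.symm n4 n6
  · -- `g = b`
    have e1 : c = f := dbl_unique h2 (h6.symm hp)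
    subst e1
    exact no3 h3.1 (h4.adj hp) h5.1

end

/-- `M` is a 1-factor, spelled out. -/
def OneF (M : Set (Sym2 (Fin 58))) : Prop :=
  M ⊆ G.edgeSet ∧ ∀ v : Fin 58, ∃! e : Sym2 (Fin 58), e ∈ M ∧ v ∈ e

theorem exists_partner {M : Set (Sym2 (Fin 58))} (hM : OneF M) :
    ∃ p : Fin 58 → Fin 58, (∀ v, G.Adj v (p v)) ∧ (∀ v, p (p v) = v) ∧
      ∀ v w, s(v, w) ∈ M ↔ p v = w := by
  have h1 : ∀ v, ∃ w, s(v, w) ∈ M ∧ ∀ w', s(v, w') ∈ M → w' = w := by
    intro v
    obtain ⟨e, ⟨he, hv⟩, hu⟩ := hM.2 v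
    obtain ⟨w, rfl⟩ := Sym2.mem_iff_exists.1 hv
    refine ⟨w, he, fun w' hw' => ?_⟩
    have := hu s(v, w') ⟨hw', Sym2.mem_mk_left _ _⟩
    exact Sym2.congr_right.1 this
  choose p hp1 hp2 using h1
  refine ⟨p, fun v => hM.1 (hp1 v), fun v => ?_, fun v w => ⟨fun h => (hp2 v w h).symm, ?_⟩⟩
  · have := hp1 v
    rw [Sym2.eq_swap] at this
    exact (hp2 _ _ this).symm
  · rintro rfl; exact hp1 v

theorem lower (M : Fin 3 → Set (Sym2 (Fin 58))) (hM : ∀ i, OneF (M i)) :
    4 ≤ (G.edgeSet \ ⋃ i, M i).ncard := by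
  choose p hadj hinv hmem using fun i => exists_partner (hM i)
  have hp : Partners p := ⟨hadj, hinv⟩
  have hU : ∀ v w, Unc p v w → s(v, w) ∈ G.edgeSet \ ⋃ i, M i := by
    intro v w h
    refine ⟨h.1, fun hmem' => ?_⟩
    obtain ⟨i, hi⟩ := Set.mem_iUnion.1 hmem'
    exact h.2 i ((hmem i v w).1 hi)
  -- there is an uncovered edge
  have hex : ∃ a b, Unc p a b := by
    by_contra hno
    have hcov : ∀ v w, G.Adj v w → p 0 v = w ∨ p 1 v = w ∨ p 2 v = w := by
      intro v w hvw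
      by_contra hc
      push Not at hc
      refine hno ⟨v, w, hvw, fun i => ?_⟩
      fin_cases i
      · exact hc.1
      · exact hc.2.1
      · exact hc.2.2
    have hsym : ∀ i v w, p i v = w → p i w = v := by
      rintro i v w rfl; exact hinv i v
    refine no_kappa (fun v w => if p 0 v = w then 0 else if p 1 v = w then 1 else 2) ?_ ?_
    · intro x y _
      have e0 : (p 0 x = y) = (p 0 y = x) := propext ⟨hsym 0 x y, hsym 0 y x⟩
      have e1 : (p 1 x = y) = (p 1 y = x) := propext ⟨hsym 1 x y, hsym 1 y x⟩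
      simp only [e0, e1]
    · intro v y z hy hz hyz
      have cy := hcov v y hy
      have cz := hcov v z hz
      by_cases y0 : p 0 v = y
      · have z0 : p 0 v ≠ z := fun h => hyz (y0.symm.trans h)
        simp only [if_pos y0, if_neg z0]
        by_cases z1 : p 1 v = z
        · simp [if_pos z1]
        · simp [if_neg z1]
      · by_cases z0 : p 0 v = z
        · simp only [if_neg y0, if_pos z0]
          by_cases y1 : p 1 v = y
          · simp [if_pos y1]
          · simp [if_neg y1]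
        · by_cases y1 : p 1 v = y
          · have z1 : p 1 v ≠ z := fun h => hyz (y1.symm.trans h)
            simp [if_neg y0, if_neg z0, if_pos y1, if_neg z1]
          · have y2 : p 2 v = y := (cy.resolve_left y0).resolve_left y1
            have z2 : p 2 v ≠ z := fun h => hyz (y2.symm.trans h)
            have z1 : p 1 v = z := by
              rcases cz with h | h | h
              · exact absurd h z0
              · exact h
              · exact absurd h z2
            simp [if_neg y0, if_neg z0, if_neg y1, if_pos z1]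
  obtain ⟨a, b, h1⟩ := hex
  obtain ⟨c, d, h2, h3⟩ := next_unc hp h1
  obtain ⟨e, f, h4, h5⟩ := next_unc hp h3
  obtain ⟨g, h, h6, h7⟩ := next_unc hp h5
  have d1 : s(a, b) ≠ s(c, d) := dist1 hp h1 h2
  have d2 : s(c, d) ≠ s(e, f) := dist1 hp h3 h4
  have d3 : s(e, f) ≠ s(g, h) := dist1 hp h5 h6
  have d4 : s(a, b) ≠ s(e, f) := dist2 hp h1 h2 h3 h4 h5
  have d5 : s(c, d) ≠ s(g, h) := dist2 hp h3 h4 h5 h6 h7
  have d6 : s(a, b) ≠ s(g, h) := dist3 hp h1 h2 h3 h4 h5 h6 h7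
  have hsub : (({s(a, b), s(c, d), s(e, f), s(g, h)} : Finset (Sym2 (Fin 58))) :
      Set (Sym2 (Fin 58))) ⊆ G.edgeSet \ ⋃ i, M i := by
    intro x hx
    simp only [Finset.coe_insert, Finset.coe_singleton, Set.mem_insert_iff,
      Set.mem_singleton_iff] at hx
    rcases hx with rfl | rfl | rfl | rfl
    · exact hU _ _ h1
    · exact hU _ _ h3
    · exact hU _ _ h5
    · exact hU _ _ h7
  have hcard : ({s(a, b), s(c, d), s(e, f), s(g, h)} : Finset (Sym2 (Fin 58))).card = 4 := by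
    rw [Finset.card_insert_of_notMem, Finset.card_insert_of_notMem, Finset.card_pair d3]
    · simp [d2, d5]
    · simp [d1, d4, d6]
  have := Set.ncard_le_ncard hsub (Set.toFinite _)
  rwa [Set.ncard_coe_finset, hcard] at this

/-! ### Explicit 1-factors missing exactly four edges -/

def pt (i : Fin 3) (v : Fin 58) : Fin 58 :=
  match i with
  | 0 => toF (PT0.getD v.val 0)
  | 1 => toF (PT1.getD v.val 0)
  | 2 => toF (PT2.getD v.val 0)

theorem pt_adj : ∀ (i : Fin 3) (v : Fin 58), (pt i v).val ∈ nlb v.val := by decide +kernel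

theorem pt_inv : ∀ (i : Fin 3) (v : Fin 58), pt i (pt i v) = v := by decide +kernel

def MM (i : Fin 3) : Set (Sym2 (Fin 58)) := {e | ∃ v, e = s(v, pt i v)}

theorem MM_oneF (i : Fin 3) : OneF (MM i) := by
  refine ⟨?_, fun v => ⟨s(v, pt i v), ⟨⟨v, rfl⟩, Sym2.mem_mk_left _ _⟩, ?_⟩⟩
  · rintro e ⟨v, rfl⟩
    exact pt_adj i v
  · rintro e ⟨⟨w, rfl⟩, hv⟩
    rcases Sym2.mem_iff.1 hv with rfl | rfl
    · rfl
    · rw [pt_inv]; exact Sym2.eq_swap

theorem mem_MM {i : Fin 3} {v w : Fin 58} (h : pt i v = w) : s(v, w) ∈ MM i := ⟨v, by rw [h]⟩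

def uncl : List (ℕ × ℕ) := [(0, 2), (1, 3), (4, 8), (11, 12)]

def covChk : Bool := (List.range 58).all fun v => (nlb v).all fun w =>
  Nat.beq (PT0.getD v 0) w || (Nat.beq (PT1.getD v 0) w || (Nat.beq (PT2.getD v 0) w ||
    (uncl.elem (v, w) || uncl.elem (w, v))))

theorem covChk_true : covChk = true := by decide +kernel

theorem cover (v w : Fin 58) (h : G.Adj v w) : pt 0 v = w ∨ pt 1 v = w ∨ pt 2 v = w ∨
    s(v, w) ∈ ({s(0, 2), s(1, 3), s(4, 8), s(11, 12)} : Finset (Sym2 (Fin 58))) := by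
  have h1 := List.all_eq_true.1 (List.all_eq_true.1 covChk_true v.val (List.mem_range.2 v.isLt))
    w.val h
  simp only [Bool.or_eq_true] at h1
  rcases h1 with h1 | h1 | h1 | h1
  · left
    have := Nat.eq_of_beq_eq_true h1
    change toF (PT0.getD v.val 0) = w
    rw [this, toF_val]
  · right; left
    have := Nat.eq_of_beq_eq_true h1
    change toF (PT1.getD v.val 0) = w
    rw [this, toF_val]
  · right; right; left
    have := Nat.eq_of_beq_eq_true h1
    change toF (PT2.getD v.val 0) = w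
    rw [this, toF_val]
  · right; right; right
    simp only [uncl, List.elem_iff, List.mem_cons, List.not_mem_nil, or_false,
      Prod.mk.injEq] at h1
    have key : ∀ k l : Fin 58, v.val = k.val → w.val = l.val → s(v, w) = s(k, l) := by
      intro k l h1 h2
      rw [Fin.ext h1, Fin.ext h2]
    have key' : ∀ k l : Fin 58, w.val = k.val → v.val = l.val → s(v, w) = s(k, l) := by
      intro k l h1 h2
      rw [Fin.ext h1, Fin.ext h2]; exact Sym2.eq_swap
    rcases h1 with (⟨a, b⟩ | ⟨a, b⟩ | ⟨a, b⟩ | ⟨a, b⟩) | (⟨a, b⟩ | ⟨a, b⟩ | ⟨a, b⟩ | ⟨a, b⟩)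
    · rw [key 0 2 a b]; simp
    · rw [key 1 3 a b]; simp
    · rw [key 4 8 a b]; simp
    · rw [key 11 12 a b]; simp
    · rw [key' 0 2 a b]; simp
    · rw [key' 1 3 a b]; simp
    · rw [key' 4 8 a b]; simp
    · rw [key' 11 12 a b]; simp

theorem MM_ncard : (G.edgeSet \ ⋃ i, MM i).ncard = 4 := by
  apply le_antisymm
  · have hsub : G.edgeSet \ ⋃ i, MM i ⊆
        (({s(0, 2), s(1, 3), s(4, 8), s(11, 12)} : Finset (Sym2 (Fin 58))) :
          Set (Sym2 (Fin 58))) := by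
      rintro e ⟨he, hn⟩
      induction e with | _ v w => ?_
      rcases cover v w he with h | h | h | h
      · exact absurd (Set.mem_iUnion.2 ⟨0, mem_MM h⟩) hn
      · exact absurd (Set.mem_iUnion.2 ⟨1, mem_MM h⟩) hn
      · exact absurd (Set.mem_iUnion.2 ⟨2, mem_MM h⟩) hn
      · exact h
    refine (Set.ncard_le_ncard hsub (Finset.finite_toSet _)).trans ?_
    rw [Set.ncard_coe_finset]
    exact Finset.card_le_four
  · exact lower MM MM_oneF

/-- The value of `mu_3` for the graph, spelled out. -/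
theorem mu_eq : sInf {m : ℕ | ∃ M : Fin 3 → Set (Sym2 (Fin 58)),
    (∀ i, M i ⊆ G.edgeSet ∧ ∀ v : Fin 58, ∃! e : Sym2 (Fin 58), e ∈ M i ∧ v ∈ e) ∧
      (G.edgeSet \ ⋃ i, M i).ncard = m} = 4 := by
  apply le_antisymm
  · exact Nat.sInf_le ⟨MM, MM_oneF, MM_ncard⟩
  · refine le_csInf ⟨4, MM, MM_oneF, MM_ncard⟩ ?_
    rintro m ⟨M, hM, rfl⟩
    exact lower M hM

end Pool.Agent.MP850d4c
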